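import Mathlib
import Pool.Agent.H24.IrrDefs
import Pool.Agent.H24.IrrE

set_option autoImplicit false

namespace Pool.Agent.Results.MP_c25556_co.Rooted

open Pool.Agent.H24.IrrDefs

theorem result : ∀ (n : ℕ) (F : SimpleGraph (Fin n)) (r : Fin n), 3 ≤ n → F.Connected →
    ¬ IsStarCentre F r → ∀ N : ℕ, ∃ (m : ℕ) (G : SimpleGraph (Fin m)), N ≤ m ∧
      Function.Injective (fun v : Fin m => rootedDeg F r G v) :=
  fun _ F r hn hF hr N => Pool.Agent.H24.IrrE.rooted_main F r hn hF hr N

end Pool.Agent.Results.MP_c25556_co.Rooted
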